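import Mathlib
import Pool.Agent.H770R2.Kad.Props

/-!
Amplification of `[[π, D], [0, π]]`.
-/

open scoped ComplexOrder InnerProductSpace

noncomputable section

namespace H770R2.Kad

open H759R2.Kad

universe u v

theorem corner_norm_sq {H : Type v} [NormedAddCommGroup H] [InnerProductSpace ℂ H] {m : ℕ}
    (v : HH (Fin m) (HH (Fin 2) H)) :
    ‖v‖ ^ 2 = ∑ i, ‖v i 0‖ ^ 2 + ∑ i, ‖v i 1‖ ^ 2 := by
  rw [PiLp.norm_sq_eq_of_L2, ← Finset.sum_add_distrib]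
  refine Finset.sum_congr rfl fun i _ => ?_
  rw [PiLp.norm_sq_eq_of_L2, Fin.sum_univ_two]

theorem prove_corner : G_corner.{u, v} := by
  intro A _ _ _ H _ _ _ π D m X
  have hP : ‖amp π.toLinearMap (Fin m) X‖ ≤ ‖X‖ :=
    NonUnitalStarAlgHom.norm_apply_le (ampHom π (Fin m)) X
  set P := amp π.toLinearMap (Fin m) X with hPdef
  set Q := amp D (Fin m) X with hQdef
  have hU : ∀ (v : HH (Fin m) (HH (Fin 2) H)) (i : Fin m),
      (amp (uD π D) (Fin m) X v) i 0 =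
        (P (WithLp.toLp 2 fun j => v j 0)) i + (Q (WithLp.toLp 2 fun j => v j 1)) i ∧
      (amp (uD π D) (Fin m) X v) i 1 = (P (WithLp.toLp 2 fun j => v j 1)) i := by
    intro v i
    constructor
    · rw [hPdef, hQdef, amp_apply, amp_apply, amp_apply, ← Finset.sum_add_distrib]
      simp [uD, opMat_apply, Fin.sum_univ_two]
    · rw [hPdef, amp_apply, amp_apply]
      simp [uD, opMat_apply, Fin.sum_univ_two]
  constructor
  · refine ContinuousLinearMap.opNorm_le_bound _ (by positivity) fun v => ?_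
    set a : HH (Fin m) H := WithLp.toLp 2 fun j => v j 0 with ha
    set b : HH (Fin m) H := WithLp.toLp 2 fun j => v j 1 with hb
    have hna : ‖a‖ ^ 2 = ∑ i, ‖v i 0‖ ^ 2 := by rw [PiLp.norm_sq_eq_of_L2]
    have hnb : ‖b‖ ^ 2 = ∑ i, ‖v i 1‖ ^ 2 := by rw [PiLp.norm_sq_eq_of_L2]
    have hv : ‖v‖ ^ 2 = ‖a‖ ^ 2 + ‖b‖ ^ 2 := by rw [corner_norm_sq, hna, hnb]
    set y : HH (Fin m) (HH (Fin 2) H) :=
      WithLp.toLp 2 fun i => inj (0 : Fin 2) ((P a) i) + inj (1 : Fin 2) ((P b) i) with hy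
    set z : HH (Fin m) (HH (Fin 2) H) :=
      WithLp.toLp 2 fun i => inj (0 : Fin 2) ((Q b) i) with hz
    have hyz : amp (uD π D) (Fin m) X v = y + z := by
      ext i k
      obtain ⟨h0, h1⟩ := hU v i
      fin_cases k
      · simp [hy, hz, inj_apply]
        rw [h0]
      · simp [hy, hz, inj_apply]
        rw [h1]
    have hy2 : ‖y‖ ≤ ‖X‖ * ‖v‖ := by
      apply le_of_sq_le_sq _ (by positivity)
      have e1 : ‖y‖ ^ 2 = ‖P a‖ ^ 2 + ‖P b‖ ^ 2 := by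
        rw [corner_norm_sq, PiLp.norm_sq_eq_of_L2, PiLp.norm_sq_eq_of_L2]
        simp [hy, inj_apply]
      have e2 : ‖P a‖ ≤ ‖X‖ * ‖a‖ :=
        (P.le_opNorm a).trans (mul_le_mul_of_nonneg_right hP (norm_nonneg _))
      have e3 : ‖P b‖ ≤ ‖X‖ * ‖b‖ :=
        (P.le_opNorm b).trans (mul_le_mul_of_nonneg_right hP (norm_nonneg _))
      rw [e1, mul_pow, hv, mul_add, ← mul_pow, ← mul_pow]
      exact add_le_add (pow_le_pow_left₀ (norm_nonneg _) e2 2)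
        (pow_le_pow_left₀ (norm_nonneg _) e3 2)
    have hz2 : ‖z‖ ≤ ‖Q‖ * ‖v‖ := by
      apply le_of_sq_le_sq _ (by positivity)
      have e1 : ‖z‖ ^ 2 = ‖Q b‖ ^ 2 := by
        rw [corner_norm_sq, PiLp.norm_sq_eq_of_L2]
        simp [hz, inj_apply]
      have e3 : ‖Q b‖ ≤ ‖Q‖ * ‖b‖ := Q.le_opNorm b
      rw [e1, mul_pow]
      calc ‖Q b‖ ^ 2 ≤ (‖Q‖ * ‖b‖) ^ 2 := pow_le_pow_left₀ (norm_nonneg _) e3 2
        _ = ‖Q‖ ^ 2 * ‖b‖ ^ 2 := mul_pow _ _ _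
        _ ≤ ‖Q‖ ^ 2 * ‖v‖ ^ 2 := by
          apply mul_le_mul_of_nonneg_left _ (by positivity)
          rw [hv]
          nlinarith [sq_nonneg ‖a‖]
    rw [hyz]
    calc ‖y + z‖ ≤ ‖y‖ + ‖z‖ := norm_add_le _ _
      _ ≤ ‖X‖ * ‖v‖ + ‖Q‖ * ‖v‖ := add_le_add hy2 hz2
      _ = (‖X‖ + ‖Q‖) * ‖v‖ := by ring
  · refine ContinuousLinearMap.opNorm_le_bound _ (norm_nonneg _) fun b => ?_
    set v : HH (Fin m) (HH (Fin 2) H) := WithLp.toLp 2 fun j => inj (1 : Fin 2) (b j) with hv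
    have hnv : ‖v‖ = ‖b‖ := by
      rw [← sq_eq_sq₀ (norm_nonneg _) (norm_nonneg _), corner_norm_sq, PiLp.norm_sq_eq_of_L2]
      simp [hv, inj_apply]
    have h1 : ‖Q b‖ ≤ ‖amp (uD π D) (Fin m) X v‖ := by
      apply le_of_sq_le_sq _ (norm_nonneg _)
      rw [corner_norm_sq (amp (uD π D) (Fin m) X v), PiLp.norm_sq_eq_of_L2]
      have e : ∀ i, (amp (uD π D) (Fin m) X v) i 0 = (Q b) i := by
        intro i
        rw [(hU v i).1]
        have e1 : (WithLp.toLp 2 fun j => v j 0 : HH (Fin m) H) = 0 := by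
          ext j
          simp [hv, inj_apply]
        have e2 : (WithLp.toLp 2 fun j => v j 1 : HH (Fin m) H) = b := by
          ext j
          simp [hv, inj_apply]
        rw [e1, e2]
        simp
      simp only [e]
      have : 0 ≤ ∑ i, ‖(amp (uD π D) (Fin m) X v) i 1‖ ^ 2 :=
        Finset.sum_nonneg fun i _ => by positivity
      linarith
    calc ‖Q b‖ ≤ ‖amp (uD π D) (Fin m) X v‖ := h1
      _ ≤ ‖amp (uD π D) (Fin m) X‖ * ‖v‖ := (amp (uD π D) (Fin m) X).le_opNorm v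
      _ = _ := by rw [hnv]

end H770R2.Kad
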